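import Pool.Agent.Lib.MP_1b6260_al.AR.Uni

set_option autoImplicit false

/-!
# MP_1b6260_al: the nucleus of free Moufang loops dies in all groups and octonion loops

`FreeMoufang X` is the free Moufang loop on `X` (terms modulo the congruence generated by the laws
of Moufang loops), `nucleus L` is the associative center. `Zorn R` is the set of Zorn's vector
matrices (split octonions) over the commutative ring `R` with Zorn's product; octonion loops are
loops of invertible elements of such rings. The homomorphisms from a Moufang loop to a group or to
the loop of invertible elements of a ring are the multiplicative maps which send `1` to `1`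
(`IsMulHom`).
-/

namespace Pool.Agent.Results.MP_1b6260_al.AllRanks

open Pool.Agent.Lib.MP_1b6260_al Pool.Agent.Lib.MP_1b6260_al.AR

universe u v

/-- The points of the set `A` with a multiplication and a unit (for instance a group, a ring or a
loop) are separated by unital multiplicative maps to associative monoids and to the vector matrices
over commutative rings. -/
def IsSeparated (A : Type v) [Mul A] [One A] : Prop :=
  ∀ a b : A, a ≠ b → (∃ (B : Type v) (_ : Monoid B) (f : A → B), IsMulHom f ∧ f a ≠ f b) ∨
    ∃ (R : Type v) (_ : CommRing R) (f : A → Zorn R), IsMulHom f ∧ f a ≠ f b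

/-- an element of the nucleus of the free Moufang loop is nuclear in all octonion loops -/
theorem octonion_of_nucleus {X : Type u} {w : FreeMoufang X}
    (hw : w ∈ nucleus (FreeMoufang X)) : IsOctonionNuclear w := by
  intro R _ χ hχ a b
  obtain ⟨h1, h2, h3⟩ := hw a b
  refine ⟨?_, ?_, ?_⟩
  · rw [← hχ.2, ← hχ.2, h1, hχ.2, hχ.2]
  · rw [← hχ.2, ← hχ.2, h2, hχ.2, hχ.2]
  · rw [← hχ.2, ← hχ.2, h3, hχ.2, hχ.2]

/-- homomorphisms to associative monoids -/
theorem monoid_eq_one {X : Type u} (hX : 3 ≤ Cardinal.mk X) {w : FreeMoufang X}
    (hw : IsOctonionNuclear w) {B : Type v} [Monoid B] {φ : FreeMoufang X → B}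
    (hφ : IsMulHom φ) : φ w = 1 := by
  let ψ : FreeMoufang X → Bˣ := fun a =>
    { val := φ a
      inv := φ (MoufangLoop.ldiv a 1)
      val_inv := by rw [← hφ.2, MoufangLoop.mul_ldiv_one, hφ.1]
      inv_val := by rw [← hφ.2, MoufangLoop.ldiv_one_mul, hφ.1] }
  have h : ψ w = 1 := group_eq_one hX hw ⟨Units.ext hφ.1, fun a b => Units.ext (hφ.2 a b)⟩
  exact congrArg Units.val h

theorem comp_hom {L : Type*} {A : Type*} {B : Type*} [Mul L] [One L] [Mul A] [One A] [Mul B]
    [One B] {φ : L → A} {f : A → B} (hφ : IsMulHom φ) (hf : IsMulHom f) :
    IsMulHom fun a => f (φ a) :=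
  ⟨by simp only [hφ.1, hf.1], fun a b => by simp only [hφ.2, hf.2]⟩

/-- Let `X` be a set with at least three elements and `w` an element of the free Moufang loop on
`X` which is nuclear, or only nuclear in all octonion loops. Then every homomorphism `φ` from the
free Moufang loop on `X` to a group, to the loop of invertible elements of Zorn's vector matrices
over a commutative ring, or to any `A` whose points are separated by multiplicative maps to
associative monoids and to the vector matrices over commutative rings, maps `w` to `1`.

So the free loop of rank `#X` in the variety generated by all groups and all octonion loops has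
trivial nucleus, and the nucleus of the free Moufang loop on `X` is contained in the kernel of the
map onto it. -/
theorem result {X : Type u} (hX : 3 ≤ Cardinal.mk X) (w : FreeMoufang X)
    (hw : w ∈ nucleus (FreeMoufang X) ∨ IsOctonionNuclear w)
    {A : Type v} [Mul A] [One A] (hA : IsSeparated A)
    {φ : FreeMoufang X → A} (hφ : IsMulHom φ) : φ w = 1 := by
  have hw' : IsOctonionNuclear w := hw.elim octonion_of_nucleus id
  by_contra hne
  rcases hA _ _ hne with ⟨B, _, f, h, hf⟩ | ⟨R, _, f, h, hf⟩
  · exact hf ((monoid_eq_one hX hw' (comp_hom hφ h)).trans h.1.symm)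
  · exact hf ((zorn_eq_one hX hw' (comp_hom hφ h)).trans h.1.symm)

end Pool.Agent.Results.MP_1b6260_al.AllRanks
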