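import Pool.Agent.Lib.MP_1b6260_al.Fnl

set_option autoImplicit false

/-!
# MP_1b6260_al: the nucleus of free Moufang loops and special Moufang loops of rank three

`FreeMoufang X` is the free Moufang loop on `X` (terms modulo the congruence generated by the laws
of Moufang loops), `nucleus L` is the associative center. A special Moufang loop is a loop of
invertible elements of a unital alternative ring; the homomorphisms from a Moufang loop to such
loops are the multiplicative maps which send `1` to `1` (`IsMulHom`).
-/

namespace Pool.Agent.Results.MP_1b6260_al.SpecialNucleus

open Pool.Agent.Lib.MP_1b6260_al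

universe u v

/-- an element of the nucleus of the free Moufang loop is nuclear in all special Moufang loops -/
theorem special_of_nucleus {X : Type u} {w : FreeMoufang X} (hw : w ∈ nucleus (FreeMoufang X)) :
    IsSpecialNuclear w := by
  intro B _ _ χ hχ a b
  obtain ⟨h1, h2, h3⟩ := hw a b
  refine ⟨?_, ?_, ?_⟩
  · rw [← hχ.2, ← hχ.2, h1, hχ.2, hχ.2]
  · rw [← hχ.2, ← hχ.2, h2, hχ.2, hχ.2]
  · rw [← hχ.2, ← hχ.2, h3, hχ.2, hχ.2]

/-- Let `X` be a set with at least three elements and `w` an element of the free Moufang loop on
`X` which is nuclear, or only nuclear in all special Moufang loops. Then every homomorphism `φ`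
from the free Moufang loop on `X` to the invertible elements of a unital alternative ring whose
image lies in a subloop generated by three elements (the image of a homomorphism `μ` of the free
Moufang loop of rank three) maps `w` to `1`.

If `X` has three elements then `φ` is arbitrary (take `μ = φ`), so the free special Moufang loop
of rank three has trivial nucleus, and the nucleus of the free Moufang loop of rank three is
contained in the kernel of the map to the free special Moufang loop of rank three. -/
theorem result {X : Type u} (hX : 3 ≤ Cardinal.mk X) (w : FreeMoufang X)
    (hw : w ∈ nucleus (FreeMoufang X) ∨ IsSpecialNuclear w)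
    {A : Type v} [NonAssocRing A] (hA : IsAlternative A)
    {μ : FreeMoufang (Fin 3) → A} (hμ : IsMulHom μ)
    {φ : FreeMoufang X → A} (hφ : IsMulHom φ)
    (himg : ∀ x : X, ∃ v : FreeMoufang (Fin 3), φ (FreeMoufang.of x) = μ v) : φ w = 1 :=
  main_theorem hX w (hw.elim special_of_nucleus id) hA hμ hφ himg

end Pool.Agent.Results.MP_1b6260_al.SpecialNucleus
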